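import Pool.Agent.Q37.PC.ExtLem

/-!
# `Ext^j_R(k, k) = 0` for one `j ≥ 1` implies that `R` is regular
-/

namespace Pool.Agent.Q37.PC

open CategoryTheory IsLocalRing TensorProduct

universe u

/-- retract in the first variable -/
lemma EV.retract_left {R : Type u} [CommRing R] {X Y Z : Type u} [AddCommGroup X] [Module R X]
    [AddCommGroup Y] [Module R Y] [AddCommGroup Z] [Module R Z]
    {j : ℕ} (i : Z →ₗ[R] X) (r : X →ₗ[R] Z) (hr : r ∘ₗ i = LinearMap.id)
    (h : EV R j X Y) : EV R j Z Y := by
  refine EV.mk fun x => ?_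
  have hh : x = (Abelian.Ext.mk₀ (ModuleCat.ofHom i)).comp
      ((Abelian.Ext.mk₀ (ModuleCat.ofHom r)).comp x (zero_add j)) (zero_add j) := by
    rw [Abelian.Ext.mk₀_comp_mk₀_assoc, ← ModuleCat.ofHom_comp, hr]
    simp
  rw [hh, h.zero (Abelian.Ext.comp _ x _), Abelian.Ext.comp_zero]

section local_

variable {R : Type u} [CommRing R] [IsLocalRing R]

/-- `1 ⊗ v = 0` in `k ⊗ V` iff `v ∈ 𝔪V`. -/
lemma one_tmul_eq_zero_iff {V : Type u} [AddCommGroup V] [Module R V] (v : V) :
    (1 : ResidueField R) ⊗ₜ[R] v = 0 ↔ v ∈ maximalIdeal R • (⊤ : Submodule R V) := by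
  have h : (TensorProduct.quotTensorEquivQuotSMul V (maximalIdeal R))
      ((1 : R ⧸ maximalIdeal R) ⊗ₜ[R] v) = Submodule.Quotient.mk v :=
    TensorProduct.quotTensorEquivQuotSMul_mk_one_tmul _ _
  constructor
  · intro h0
    have h0' : (1 : R ⧸ maximalIdeal R) ⊗ₜ[R] v = 0 := h0
    rw [h0', map_zero] at h
    exact (Submodule.Quotient.mk_eq_zero _).1 h.symm
  · intro hv
    rw [(Submodule.Quotient.mk_eq_zero _).2 hv] at h
    have h1 := (LinearEquiv.map_eq_zero_iff _).1 h
    exact h1

/-- every element of `k ⊗ V` is of the form `1 ⊗ v` -/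
lemma exists_one_tmul {V : Type u} [AddCommGroup V] [Module R V] (z : ResidueField R ⊗[R] V) :
    ∃ v : V, (1 : ResidueField R) ⊗ₜ[R] v = z :=
  TensorProduct.mk_surjective R V (ResidueField R) residue_surjective z

variable [IsNoetherianRing R]

/-- `Ext¹(M, k) = 0` implies `M` free. -/
lemma free_of_ev_one (M : Type u) [AddCommGroup M] [Module R M] [Module.Finite R M]
    (h : EV R 1 M (ResidueField R)) : Module.Free R M := by
  obtain ⟨F, _, _, _, _, π, hπ⟩ := Module.exists_finite_presentation R M
  have hex : Function.Exact (LinearMap.ker π).subtype π := LinearMap.exact_subtype_ker_map π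
  refine Module.free_of_lTensor_residueField_injective _ _ hπ hex ?_
  rw [← LinearMap.ker_eq_bot, Submodule.eq_bot_iff]
  intro z hz
  rw [LinearMap.mem_ker] at hz
  -- use functionals
  rw [← Module.forall_dual_apply_eq_zero_iff (ResidueField R)]
  intro lam
  -- the restricted functional
  let φ : LinearMap.ker π →ₗ[R] ResidueField R :=
    (lam.restrictScalars R) ∘ₗ (TensorProduct.mk R (ResidueField R) (LinearMap.ker π) 1)
  obtain ⟨Ψ, hΨ⟩ := EV.extend hex (LinearMap.ker π).subtype_injective hπ h φ
  obtain ⟨v, rfl⟩ := exists_one_tmul z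
  rw [LinearMap.lTensor_tmul, one_tmul_eq_zero_iff] at hz
  have h1 : lam (1 ⊗ₜ v) = Ψ ((LinearMap.ker π).subtype v) := by
    have : φ v = Ψ ((LinearMap.ker π).subtype v) := by rw [← hΨ]; rfl
    exact this
  rw [h1]
  have h2 : ∀ w ∈ maximalIdeal R • (⊤ : Submodule R F), Ψ w = 0 := by
    intro w hw
    refine Submodule.smul_induction_on hw (fun a ha y _ => ?_) (fun a b ha hb => ?_)
    · rw [map_smul, Algebra.smul_def]
      have : algebraMap R (ResidueField R) a = 0 := by
        rwa [ResidueField.algebraMap_eq, residue_eq_zero_iff]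
      rw [this, zero_mul]
    · rw [map_add, ha, hb, add_zero]
  exact h2 _ hz

/-- If `𝔪` is associated to `R`, then modules of finite projective dimension are free. -/
lemma free_of_soc (s : R) (hs0 : s ≠ 0) (hs : ∀ a ∈ maximalIdeal R, a * s = 0) :
    ∀ (j : ℕ) (M : Type u) [AddCommGroup M] [Module R M] [Module.Finite R M],
      EV R (j + 1) M (ResidueField R) → Module.Free R M := by
  intro j
  induction j with
  | zero => intro M _ _ _ h; exact free_of_ev_one M h
  | succ j ih =>
    intro M _ _ _ h
    obtain ⟨F, _, _, _, _, π, hπ⟩ := Module.exists_finite_presentation R M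
    have hex : Function.Exact (LinearMap.ker π).subtype π := LinearMap.exact_subtype_ker_map π
    have hK : Module.Free R (LinearMap.ker π) :=
      ih _ (EV.con1 hex (LinearMap.ker π).subtype_injective hπ (EV.of_projective j) h)
    refine Module.free_of_lTensor_residueField_injective _ _ hπ hex ?_
    rw [← LinearMap.ker_eq_bot, Submodule.eq_bot_iff]
    intro z hz
    rw [LinearMap.mem_ker] at hz
    obtain ⟨v, rfl⟩ := exists_one_tmul z
    rw [LinearMap.lTensor_tmul, one_tmul_eq_zero_iff] at hz
    rw [one_tmul_eq_zero_iff]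
    have hsF : ∀ w ∈ maximalIdeal R • (⊤ : Submodule R F), s • w = 0 := by
      intro w hw
      refine Submodule.smul_induction_on hw (fun a ha y _ => ?_) (fun a b ha hb => ?_)
      · rw [smul_smul, mul_comm, hs a ha, zero_smul]
      · rw [smul_add, ha, hb, add_zero]
    have hsv : s • v = 0 := by
      apply (LinearMap.ker π).subtype_injective
      rw [map_smul, hsF _ hz, map_zero]
    -- coordinates
    let b := Module.Free.chooseBasis R (LinearMap.ker π)
    have hc : ∀ i, b.repr v i ∈ maximalIdeal R := by
      intro i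
      rw [mem_maximalIdeal, mem_nonunits_iff]
      intro hu
      have h3 : s * b.repr v i = 0 := by
        have := congrArg (fun w => b.repr w i) hsv
        simpa using this
      exact hs0 ((hu.mul_left_eq_zero).1 h3)
    rw [← b.sum_repr v]
    exact Submodule.sum_mem _ fun i _ => Submodule.smul_mem_smul (hc i) trivial

/-- Passing to `R / x`. -/
lemma descend (x : R) (hx : x ∈ nonZeroDivisors R) :
    ∀ (j : ℕ) (M : Type u) [AddCommGroup M] [Module R M] [Module.Finite R M]
      (_ : ∀ m : M, x • m = 0 → m = 0) (_ : EV R (j + 1) M (ResidueField R))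
      (Y : Type u) [AddCommGroup Y] [Module (R ⧸ Ideal.span {x}) Y],
      EV (R ⧸ Ideal.span {x}) (j + 1) (M ⧸ (Ideal.span {x} • ⊤ : Submodule R M)) Y := by
  have hsurj : Function.Surjective (algebraMap R (R ⧸ Ideal.span {x})) :=
    Ideal.Quotient.mk_surjective
  have hfree : ∀ (M : Type u) [AddCommGroup M] [Module R M] [Module.Free R M],
      Module.Free (R ⧸ Ideal.span {x}) (M ⧸ (Ideal.span {x} • ⊤ : Submodule R M)) := by
    intro M _ _ _
    exact Module.Free.of_equiv
      ((TensorProduct.quotTensorEquivQuotSMul M (Ideal.span {x})).extendScalarsOfSurjective hsurj)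
  intro j
  induction j with
  | zero =>
    intro M _ _ _ hM h Y _ _
    have := free_of_ev_one M h
    have := hfree M
    exact EV.of_projective 0
  | succ j ih =>
    intro M _ _ _ hM h Y _ _
    obtain ⟨F, _, _, _, _, π, hπ⟩ := Module.exists_finite_presentation R M
    have hex : Function.Exact (LinearMap.ker π).subtype π := LinearMap.exact_subtype_ker_map π
    have hF : ∀ m : F, x • m = 0 → m = 0 := by
      intro m hm
      let b := Module.Free.chooseBasis R F
      apply b.repr.injective
      ext i
      have h3 : x * b.repr m i = 0 := by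
        have := congrArg (fun w => b.repr w i) hm
        simpa using this
      have h4 := (mul_right_mem_nonZeroDivisors_eq_zero_iff hx).1 (by rw [mul_comm] at h3; exact h3)
      simpa using h4
    have hK : ∀ m : LinearMap.ker π, x • m = 0 → m = 0 := by
      intro m hm
      apply Subtype.ext
      exact hF m (by simpa using congrArg Subtype.val hm)
    have h1 := ih (LinearMap.ker π) hK
      (EV.con1 hex (LinearMap.ker π).subtype_injective hπ (EV.of_projective j) h) Y
    have := hfree F
    let f' := (Submodule.mapQ (Ideal.span {x} • ⊤ : Submodule R (LinearMap.ker π))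
      (Ideal.span {x} • ⊤ : Submodule R F) (LinearMap.ker π).subtype
      (Submodule.smul_top_le_comap_smul_top _ _)).extendScalarsOfSurjective hsurj
    let g' := (Submodule.mapQ (Ideal.span {x} • ⊤ : Submodule R F)
      (Ideal.span {x} • ⊤ : Submodule R M) π
      (Submodule.smul_top_le_comap_smul_top _ _)).extendScalarsOfSurjective hsurj
    have hmem : ∀ {V : Type u} [AddCommGroup V] [Module R V] (v : V),
        v ∈ (Ideal.span {x} • ⊤ : Submodule R V) ↔ ∃ w : V, x • w = v := by
      intro V _ _ v
      rw [Submodule.ideal_span_singleton_smul, Submodule.mem_smul_pointwise_iff_exists]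
      simp
    have hf' : Function.Injective f' := by
      rw [injective_iff_map_eq_zero]
      intro y hy
      obtain ⟨v, rfl⟩ := Submodule.Quotient.mk_surjective _ y
      have h2 : Submodule.Quotient.mk ((LinearMap.ker π).subtype v) =
        (0 : F ⧸ (Ideal.span {x} • ⊤ : Submodule R F)) := hy
      rw [Submodule.Quotient.mk_eq_zero, hmem] at h2 ⊢
      obtain ⟨w, hw⟩ := h2
      have h3 : π w = 0 := hM _ (by rw [← map_smul, hw]; exact v.2)
      exact ⟨⟨w, h3⟩, Subtype.ext hw⟩
    have hg' : Function.Surjective g' := by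
      intro y
      obtain ⟨m, rfl⟩ := Submodule.Quotient.mk_surjective _ y
      obtain ⟨v, rfl⟩ := hπ m
      exact ⟨Submodule.Quotient.mk v, rfl⟩
    have hex' : Function.Exact f' g' := by
      intro y
      constructor
      · intro hy
        obtain ⟨v, rfl⟩ := Submodule.Quotient.mk_surjective _ y
        have h2 : Submodule.Quotient.mk (π v) =
          (0 : M ⧸ (Ideal.span {x} • ⊤ : Submodule R M)) := hy
        rw [Submodule.Quotient.mk_eq_zero, hmem] at h2
        obtain ⟨w, hw⟩ := h2
        obtain ⟨w, rfl⟩ := hπ w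
        refine ⟨Submodule.Quotient.mk ⟨v - x • w, ?_⟩, ?_⟩
        · rw [LinearMap.mem_ker, map_sub, map_smul, hw, sub_self]
        · show Submodule.Quotient.mk (v - x • w) = Submodule.Quotient.mk v
          rw [Submodule.Quotient.eq, hmem]
          exact ⟨-w, by rw [smul_neg]; abel⟩
      · rintro ⟨y, rfl⟩
        obtain ⟨v, rfl⟩ := Submodule.Quotient.mk_surjective _ y
        show Submodule.Quotient.mk (π v) = (0 : M ⧸ (Ideal.span {x} • ⊤ : Submodule R M))
        have : π v = 0 := v.2
        rw [this, Submodule.Quotient.mk_zero]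
    exact EV.con3 hex' hf' hg' h1 (EV.of_projective _)

end local_

end Pool.Agent.Q37.PC
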