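import Mathlib

/-!
# Vanishing of `Ext` for unbundled modules: the exact sequences we need
-/

namespace Pool.Agent.Q37.PC

open CategoryTheory CategoryTheory.Abelian

universe u

/-- `Ext^j_R(X, Y) = 0`. -/
def EV (R : Type u) [CommRing R] (j : ℕ) (X Y : Type u) [AddCommGroup X] [Module R X]
    [AddCommGroup Y] [Module R Y] : Prop :=
  Subsingleton (Ext (ModuleCat.of R X) (ModuleCat.of R Y) j)

section

variable {R : Type u} [CommRing R]
variable {X Y Z X₁ X₂ X₃ : Type u}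
variable [AddCommGroup X] [Module R X] [AddCommGroup Y] [Module R Y] [AddCommGroup Z] [Module R Z]
variable [AddCommGroup X₁] [Module R X₁] [AddCommGroup X₂] [Module R X₂]
variable [AddCommGroup X₃] [Module R X₃]

lemma EV.zero {j : ℕ} (h : EV R j X Y) (x : Ext (ModuleCat.of R X) (ModuleCat.of R Y) j) :
    x = 0 := by
  exact (show Subsingleton _ from h).elim _ _

lemma EV.mk {j : ℕ} (h : ∀ x : Ext (ModuleCat.of R X) (ModuleCat.of R Y) j, x = 0) :
    EV R j X Y := subsingleton_of_forall_eq 0 h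

/-- the short complex of a short exact sequence of modules -/
noncomputable abbrev sc (f : X₁ →ₗ[R] X₂) (g : X₂ →ₗ[R] X₃) (h : Function.Exact f g) :
    ShortComplex (ModuleCat.{u} R) :=
  ShortComplex.mk (ModuleCat.ofHom f) (ModuleCat.ofHom g) (by
    ext x
    exact h.apply_apply_eq_zero x)

lemma sc_exact (f : X₁ →ₗ[R] X₂) (g : X₂ →ₗ[R] X₃) (h : Function.Exact f g)
    (hf : Function.Injective f) (hg : Function.Surjective g) : (sc f g h).ShortExact where
  exact := (ShortComplex.ShortExact.moduleCat_exact_iff_function_exact _).2 h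
  mono_f := (ModuleCat.mono_iff_injective _).2 hf
  epi_g := (ModuleCat.epi_iff_surjective _).2 hg

variable {f : X₁ →ₗ[R] X₂} {g : X₂ →ₗ[R] X₃}

/-- contravariant, middle -/
lemma EV.con2 (h : Function.Exact f g) (hf : Function.Injective f) (hg : Function.Surjective g)
    {j : ℕ} (h1 : EV R j X₁ Y) (h3 : EV R j X₃ Y) : EV R j X₂ Y := by
  refine EV.mk fun x => ?_
  have hS := sc_exact f g h hf hg
  obtain ⟨y, hy⟩ := Ext.contravariant_sequence_exact₂ hS (ModuleCat.of R Y) x (h1.zero _)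
  rw [← hy, h3.zero y, Ext.comp_zero]

/-- contravariant, right -/
lemma EV.con3 (h : Function.Exact f g) (hf : Function.Injective f) (hg : Function.Surjective g)
    {j : ℕ} (h1 : EV R j X₁ Y) (h2 : EV R (j+1) X₂ Y) : EV R (j+1) X₃ Y := by
  refine EV.mk fun x => ?_
  have hS := sc_exact f g h hf hg
  obtain ⟨y, hy⟩ := Ext.contravariant_sequence_exact₃ hS (ModuleCat.of R Y) x (h2.zero _)
    (add_comm 1 j)
  rw [← hy, h1.zero y, Ext.comp_zero]

/-- contravariant, left -/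
lemma EV.con1 (h : Function.Exact f g) (hf : Function.Injective f) (hg : Function.Surjective g)
    {j : ℕ} (h2 : EV R j X₂ Y) (h3 : EV R (j+1) X₃ Y) : EV R j X₁ Y := by
  refine EV.mk fun x => ?_
  have hS := sc_exact f g h hf hg
  obtain ⟨y, hy⟩ := Ext.contravariant_sequence_exact₁ hS (ModuleCat.of R Y) x
    (add_comm 1 j) (h3.zero _)
  rw [← hy, h2.zero y, Ext.comp_zero]

/-- covariant, middle -/
lemma EV.cov2 (h : Function.Exact f g) (hf : Function.Injective f) (hg : Function.Surjective g)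
    {j : ℕ} (h1 : EV R j Y X₁) (h3 : EV R j Y X₃) : EV R j Y X₂ := by
  refine EV.mk fun x => ?_
  have hS := sc_exact f g h hf hg
  obtain ⟨y, hy⟩ := Ext.covariant_sequence_exact₂ (ModuleCat.of R Y) hS x (h3.zero _)
  rw [← hy, h1.zero y, Ext.zero_comp]

/-- covariant, right -/
lemma EV.cov3 (h : Function.Exact f g) (hf : Function.Injective f) (hg : Function.Surjective g)
    {j : ℕ} (h2 : EV R j Y X₂) (h1 : EV R (j+1) Y X₁) : EV R j Y X₃ := by
  refine EV.mk fun x => ?_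
  have hS := sc_exact f g h hf hg
  obtain ⟨y, hy⟩ := Ext.covariant_sequence_exact₃ (ModuleCat.of R Y) hS x rfl (h1.zero _)
  rw [← hy, h2.zero y, Ext.zero_comp]

/-- covariant, left -/
lemma EV.cov1 (h : Function.Exact f g) (hf : Function.Injective f) (hg : Function.Surjective g)
    {j : ℕ} (h3 : EV R j Y X₃) (h2 : EV R (j+1) Y X₂) : EV R (j+1) Y X₁ := by
  refine EV.mk fun x => ?_
  have hS := sc_exact f g h hf hg
  obtain ⟨y, hy⟩ := Ext.covariant_sequence_exact₁ (ModuleCat.of R Y) hS x (h2.zero _) rfl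
  rw [← hy, h3.zero y, Ext.zero_comp]

lemma EV.of_injective [Module.Injective R Y] (j : ℕ) : EV R (j+1) X Y := by
  have : Injective (ModuleCat.of R Y) := Module.injective_object_of_injective_module R Y
  exact Ext.subsingleton_of_injective _ _ _

lemma EV.of_projective [Module.Projective R X] (j : ℕ) : EV R (j+1) X Y := by
  have : Projective (ModuleCat.of R X) := (IsProjective.iff_projective X).1 inferInstance
  exact Ext.subsingleton_of_projective _ _ _

/-- isomorphism in the second variable -/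
lemma EV.congr_right {j : ℕ} (e : Y ≃ₗ[R] Z) (h : EV R j X Y) : EV R j X Z := by
  refine EV.mk fun x => ?_
  have hh : x = (x.comp (Ext.mk₀ (ModuleCat.ofHom (e.symm : Z →ₗ[R] Y))) (add_zero j)).comp
      (Ext.mk₀ (ModuleCat.ofHom (e : Y →ₗ[R] Z))) (add_zero j) := by
    rw [Ext.comp_assoc_of_third_deg_zero, Ext.mk₀_comp_mk₀, ← ModuleCat.ofHom_comp]
    simp
  rw [hh, h.zero (x.comp _ _), Ext.zero_comp]

/-- retract in the second variable -/
lemma EV.retract_right {j : ℕ} (i : Z →ₗ[R] Y) (r : Y →ₗ[R] Z) (hr : r ∘ₗ i = LinearMap.id)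
    (h : EV R j X Y) : EV R j X Z := by
  refine EV.mk fun x => ?_
  have hh : x = (x.comp (Ext.mk₀ (ModuleCat.ofHom i)) (add_zero j)).comp
      (Ext.mk₀ (ModuleCat.ofHom r)) (add_zero j) := by
    rw [Ext.comp_assoc_of_third_deg_zero, Ext.mk₀_comp_mk₀, ← ModuleCat.ofHom_comp, hr]
    simp
  rw [hh, h.zero (x.comp _ _), Ext.zero_comp]

/-- isomorphism in the first variable -/
lemma EV.congr_left {j : ℕ} (e : X ≃ₗ[R] Z) (h : EV R j X Y) : EV R j Z Y := by
  refine EV.mk fun x => ?_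
  have hh : x = (Ext.mk₀ (ModuleCat.ofHom (e.symm : Z →ₗ[R] X))).comp
      ((Ext.mk₀ (ModuleCat.ofHom (e : X →ₗ[R] Z))).comp x (zero_add j)) (zero_add j) := by
    rw [Ext.mk₀_comp_mk₀_assoc, ← ModuleCat.ofHom_comp]
    simp
  rw [hh, h.zero (Ext.comp _ x _), Ext.comp_zero]

/-- If `Ext¹(Y, X₁) = 0` then maps `Y → X₃` lift to `X₂`. -/
lemma EV.lift (h : Function.Exact f g) (hf : Function.Injective f) (hg : Function.Surjective g)
    (h1 : EV R 1 Y X₁) (φ : Y →ₗ[R] X₃) : ∃ ψ : Y →ₗ[R] X₂, g ∘ₗ ψ = φ := by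
  have hS := sc_exact f g h hf hg
  obtain ⟨y, hy⟩ := Ext.covariant_sequence_exact₃ (ModuleCat.of R Y) hS
    (Ext.mk₀ (ModuleCat.ofHom φ)) (n₁ := 1) rfl (h1.zero _)
  obtain ⟨ψ, rfl⟩ := (Ext.mk₀_bijective _ _).2 y
  rw [Ext.mk₀_comp_mk₀] at hy
  refine ⟨ψ.hom, ?_⟩
  have := (Ext.mk₀_bijective _ _).1 hy
  exact congrArg ModuleCat.Hom.hom this

/-- If `X₂` is injective and all maps `Y → X₃` lift, then `Ext¹(Y, X₁) = 0`. -/
lemma EV.of_lift (h : Function.Exact f g) (hf : Function.Injective f) (hg : Function.Surjective g)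
    (h2 : EV R 1 Y X₂) (hl : ∀ φ : Y →ₗ[R] X₃, ∃ ψ : Y →ₗ[R] X₂, g ∘ₗ ψ = φ) :
    EV R 1 Y X₁ := by
  refine EV.mk fun x => ?_
  have hS := sc_exact f g h hf hg
  obtain ⟨y, hy⟩ := Ext.covariant_sequence_exact₁ (ModuleCat.of R Y) hS x (h2.zero _)
    (n₀ := 0) rfl
  obtain ⟨φ, rfl⟩ := (Ext.mk₀_bijective _ _).2 y
  obtain ⟨ψ, hψ⟩ := hl φ.hom
  have h3 : φ = ModuleCat.ofHom ψ ≫ ModuleCat.ofHom g := by
    rw [← ModuleCat.ofHom_comp, hψ]; rfl
  rw [← hy, h3, ← Ext.mk₀_comp_mk₀, Ext.comp_assoc_of_second_deg_zero]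
  rw [show (Ext.mk₀ (ModuleCat.ofHom g)).comp hS.extClass (zero_add 1) = 0 from
    hS.comp_extClass, Ext.comp_zero]

/-- If `Ext¹(X₃, Y) = 0` then maps `X₁ → Y` extend to `X₂`. -/
lemma EV.extend (h : Function.Exact f g) (hf : Function.Injective f) (hg : Function.Surjective g)
    (h1 : EV R 1 X₃ Y) (φ : X₁ →ₗ[R] Y) : ∃ ψ : X₂ →ₗ[R] Y, ψ ∘ₗ f = φ := by
  have hS := sc_exact f g h hf hg
  obtain ⟨y, hy⟩ := Ext.contravariant_sequence_exact₁ hS (ModuleCat.of R Y)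
    (Ext.mk₀ (ModuleCat.ofHom φ)) (n₁ := 1) rfl (h1.zero _)
  obtain ⟨ψ, rfl⟩ := (Ext.mk₀_bijective _ _).2 y
  rw [Ext.mk₀_comp_mk₀] at hy
  refine ⟨ψ.hom, ?_⟩
  have := (Ext.mk₀_bijective _ _).1 hy
  exact congrArg ModuleCat.Hom.hom this

/-- If `X₂` is projective and all maps `X₁ → Y` extend, then `Ext¹(X₃, Y) = 0`. -/
lemma EV.of_extend (h : Function.Exact f g) (hf : Function.Injective f)
    (hg : Function.Surjective g)
    (h2 : EV R 1 X₂ Y) (hl : ∀ φ : X₁ →ₗ[R] Y, ∃ ψ : X₂ →ₗ[R] Y, ψ ∘ₗ f = φ) :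
    EV R 1 X₃ Y := by
  refine EV.mk fun x => ?_
  have hS := sc_exact f g h hf hg
  obtain ⟨y, hy⟩ := Ext.contravariant_sequence_exact₃ hS (ModuleCat.of R Y) x (h2.zero _)
    (n₀ := 0) rfl
  obtain ⟨φ, rfl⟩ := (Ext.mk₀_bijective _ _).2 y
  obtain ⟨ψ, hψ⟩ := hl φ.hom
  have h3 : φ = ModuleCat.ofHom f ≫ ModuleCat.ofHom ψ := by
    rw [← ModuleCat.ofHom_comp, hψ]; rfl
  rw [← hy, h3, ← Ext.mk₀_comp_mk₀]
  rw [← Ext.comp_assoc (hS.extClass) (Ext.mk₀ (ModuleCat.ofHom f)) (Ext.mk₀ (ModuleCat.ofHom ψ))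
    (add_zero 1) (zero_add 0) (by rfl)]
  rw [show (hS.extClass).comp (Ext.mk₀ (ModuleCat.ofHom f)) (add_zero 1) = 0 from
    hS.extClass_comp, Ext.zero_comp]

end

end Pool.Agent.Q37.PC
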