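import Pool.Agent.Q37.PC.Rigid

/-!
# Passing to radical quotients of perfect algebras
-/

namespace Pool.Agent.Q37.PC

open CategoryTheory IsLocalRing

universe u

/-- `B` has characteristic dividing `p` and `x ↦ x ^ p` is bijective. -/
structure Perf (p : ℕ) (B : Type u) [CommRing B] : Prop where
  char : (p : B) = 0
  bij : Function.Bijective (fun x : B => x ^ p)

section

variable {B : Type u} [CommRing B] {p : ℕ}

lemma Perf.isReduced (hp : p.Prime) (h : Perf p B) : IsReduced B := by
  have key : ∀ (e : ℕ) (x : B), x ^ p ^ e = 0 → x = 0 := by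
    intro e
    induction e with
    | zero => intro x hx; simpa using hx
    | succ e ih =>
      intro x hx
      refine ih x (h.bij.1 ?_)
      show (x ^ p ^ e) ^ p = 0 ^ p
      rw [← pow_mul, ← pow_succ, hx, zero_pow hp.ne_zero]
  refine ⟨fun x ⟨n, hn⟩ => ?_⟩
  obtain ⟨e, he⟩ : ∃ e, n ≤ p ^ e := ⟨n, (Nat.lt_pow_self hp.one_lt).le⟩
  exact key e x (by rw [← Nat.sub_add_cancel he, pow_add, hn, mul_zero])

/-- iterated `p`-th roots of `b` -/
lemma Perf.exists_roots (h : Perf p B) (b : B) :
    ∃ r : ℕ → B, r 0 = b ∧ ∀ e, r (e + 1) ^ p = r e := by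
  choose s hs using h.bij.2
  exact ⟨fun e => Nat.rec b (fun _ y => s y) e, rfl, fun e => hs _⟩

lemma roots_pow {r : ℕ → B} {b : B} (h0 : r 0 = b) (h1 : ∀ e, r (e + 1) ^ p = r e) (e : ℕ) :
    r e ^ p ^ e = b := by
  induction e with
  | zero => simpa using h0
  | succ e ih => rw [pow_succ', pow_mul, h1, ih]

lemma mem_radical_iff (hp : p.Prime) (h : Perf p B) {r : ℕ → B} {b : B} (h0 : r 0 = b)
    (h1 : ∀ e, r (e + 1) ^ p = r e) (y : B) :
    y ∈ (Ideal.span {b}).radical ↔ ∃ e, y ∈ Ideal.span {r e} := by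
  constructor
  · rintro ⟨n, hn⟩
    obtain ⟨e, he⟩ : ∃ e, n ≤ p ^ e := ⟨n, (Nat.lt_pow_self hp.one_lt).le⟩
    have h2 : y ^ p ^ e ∈ Ideal.span {b} := by
      rw [← Nat.sub_add_cancel he, pow_add]
      exact Ideal.mul_mem_left _ _ hn
    obtain ⟨c, hc⟩ := Ideal.mem_span_singleton'.1 h2
    obtain ⟨r', hr0, hr1⟩ := h.exists_roots c
    refine ⟨e, Ideal.mem_span_singleton'.2 ⟨r' e, ?_⟩⟩
    have hinj : Function.Injective (fun x : B => x ^ p ^ e) := by
      clear * - h
      induction e with
      | zero => intro x y hxy; simpa using hxy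
      | succ e ih =>
        intro x y hxy
        refine ih (h.bij.1 ?_)
        show (x ^ p ^ e) ^ p = (y ^ p ^ e) ^ p
        rw [← pow_mul, ← pow_mul, ← pow_succ]
        exact hxy
    apply hinj
    show (r' e * r e) ^ p ^ e = y ^ p ^ e
    rw [mul_pow, roots_pow hr0 hr1, roots_pow h0 h1, hc]
  · rintro ⟨e, he⟩
    obtain ⟨c, rfl⟩ := Ideal.mem_span_singleton'.1 he
    refine ⟨p ^ e, ?_⟩
    rw [mul_pow, roots_pow h0 h1]
    exact Ideal.mul_mem_left _ _ (Ideal.subset_span rfl)

lemma roots_mono {r : ℕ → B} (hp : p.Prime) (h1 : ∀ e, r (e + 1) ^ p = r e) :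
    Monotone (fun e => Ideal.span {r e}) := by
  refine monotone_nat_of_le_succ fun e => ?_
  rw [Ideal.span_singleton_le_span_singleton, ← h1 e]
  exact dvd_pow_self _ hp.ne_zero

/-- The inclusion `(r_e) ⊆ (r_{e+1})` factors through `B` and multiplication by `r_{e+1}`. -/
lemma exists_factor (hp : p.Prime) (h : Perf p B) {r : ℕ → B}
    (h1 : ∀ e, r (e + 1) ^ p = r e) (e : ℕ) :
    ∃ g : Ideal.span {r e} →ₗ[B] B, ∀ y, r (e + 1) * g y = y := by
  have hred := h.isReduced hp
  let a : B →ₗ[B] Ideal.span {r e} := LinearMap.toSpanSingleton B _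
    ⟨r e, Ideal.subset_span rfl⟩
  have ha : Function.Surjective a := by
    rintro ⟨y, hy⟩
    obtain ⟨c, hc⟩ := Ideal.mem_span_singleton'.1 hy
    exact ⟨c, Subtype.ext hc⟩
  let c : B →ₗ[B] B := LinearMap.toSpanSingleton B B (r (e + 1) ^ (p - 1))
  have hker : LinearMap.ker a ≤ LinearMap.ker c := by
    intro z hz
    rw [LinearMap.mem_ker] at hz ⊢
    have hz' : z * r e = 0 := congrArg Subtype.val hz
    have h2 : (r (e + 1) * z) ^ p = 0 := by
      obtain ⟨q, hq⟩ : ∃ q, p = q + 1 := ⟨p - 1, by have := hp.one_lt; omega⟩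
      rw [mul_pow, h1, hq, pow_succ' z, ← mul_assoc, mul_comm (r e) z, hz', zero_mul]
    have h3 : r (e + 1) * z = 0 := pow_eq_zero_iff hp.ne_zero |>.1 h2
    show z • r (e + 1) ^ (p - 1) = 0
    obtain ⟨q, hq⟩ : ∃ q, p - 1 = q + 1 := ⟨p - 2, by have := hp.two_le; omega⟩
    rw [smul_eq_mul, hq, pow_succ', ← mul_assoc, mul_comm z, h3, zero_mul]
  refine ⟨(Submodule.liftQ _ c hker) ∘ₗ (a.quotKerEquivOfSurjective ha).symm.toLinearMap, ?_⟩
  intro y
  obtain ⟨z, rfl⟩ := ha y
  have h4 : (a.quotKerEquivOfSurjective ha).symm (a z) = Submodule.Quotient.mk z := by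
    rw [LinearEquiv.symm_apply_eq]
    rfl
  rw [LinearMap.comp_apply, LinearEquiv.coe_coe, h4, Submodule.liftQ_apply]
  show r (e + 1) * (z • r (e + 1) ^ (p - 1)) = z • r e
  rw [← h1 e, smul_eq_mul, smul_eq_mul]
  obtain ⟨q, hq⟩ : ∃ q, p = q + 1 := ⟨p - 1, by have := hp.one_lt; omega⟩
  rw [hq, Nat.add_sub_cancel, pow_succ]
  ring

end

section

variable {R : Type u} [CommRing R] [IsNoetherianRing R]
variable {B : Type u} [CommRing B] [Algebra R B] {p : ℕ}

/-- vanishing for `B` implies vanishing for the radical of a principal ideal -/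
lemma ev_radical (hp : p.Prime) (h : Perf p B) (b : B) :
    ∀ (j : ℕ) (L : Type u) [AddCommGroup L] [Module R L] [Module.Finite R L],
      EV R (j + 1) L B → EV R (j + 1) L (Ideal.span {b}).radical := by
  obtain ⟨r, h0, h1⟩ := h.exists_roots b
  intro j
  induction j with
  | zero =>
    intro L _ _ _ hL
    obtain ⟨F, _, _, _, _, π, hπ⟩ := Module.exists_finite_presentation R L
    have hex : Function.Exact (LinearMap.ker π).subtype π := LinearMap.exact_subtype_ker_map π
    refine EV.of_extend hex (LinearMap.ker π).subtype_injective hπ (EV.of_projective 0)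
      fun φ => ?_
    have hKn : IsNoetherian R (LinearMap.ker π) := inferInstance
    -- the image lies in one of the principal ideals
    let c : ℕ →o Submodule R (LinearMap.ker π) :=
      { toFun := fun e => 
          { carrier := {k | ((φ k : (Ideal.span {b}).radical) : B) ∈ Ideal.span {r e}}
            add_mem' := fun {x y} hx hy => by
              show ((φ (x + y) : (Ideal.span {b}).radical) : B) ∈ Ideal.span {r e}
              rw [map_add]
              exact Ideal.add_mem _ hx hy
            zero_mem' := by simp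
            smul_mem' := fun a x hx => by
              show ((φ (a • x) : (Ideal.span {b}).radical) : B) ∈ Ideal.span {r e}
              rw [map_smul, Submodule.coe_smul_of_tower, Algebra.smul_def]
              exact Ideal.mul_mem_left _ _ hx }
        monotone' := fun e e' hee' x hx => roots_mono hp h1 hee' hx }
    obtain ⟨n, hn⟩ := monotone_stabilizes_iff_noetherian.2 hKn c
    have hmem : ∀ k, ((φ k : (Ideal.span {b}).radical) : B) ∈ Ideal.span {r n} := by
      intro k
      obtain ⟨e, he⟩ := (mem_radical_iff hp h h0 h1 _).1 (φ k).2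
      have h2 : k ∈ c (max n e) := c.monotone (le_max_right n e) he
      rw [← hn _ (le_max_left n e)] at h2
      exact h2
    obtain ⟨g, hg⟩ := exists_factor hp h h1 n
    let φ' : LinearMap.ker π →ₗ[R] B :=
      { toFun := fun k => g ⟨_, hmem k⟩
        map_add' := fun x y => by
          rw [← map_add]
          congr 1
          apply Subtype.ext
          simp
        map_smul' := fun a x => by
          rw [RingHom.id_apply, Algebra.smul_def, ← smul_eq_mul, ← map_smul]
          congr 1
          apply Subtype.ext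
          simp [Algebra.smul_def] }
    obtain ⟨Ψ, hΨ⟩ := EV.extend hex (LinearMap.ker π).subtype_injective hπ hL φ'
    have hrn : r (n + 1) ∈ (Ideal.span {b}).radical :=
      (mem_radical_iff hp h h0 h1 _).2 ⟨n + 1, Ideal.subset_span rfl⟩
    refine ⟨{ toFun := fun x => ⟨r (n + 1) * Ψ x, Ideal.mul_mem_right _ _ hrn⟩
              map_add' := fun x y => by
                apply Subtype.ext
                simp [mul_add]
              map_smul' := fun a x => by
                apply Subtype.ext
                simp }, ?_⟩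
    apply LinearMap.ext
    intro k
    apply Subtype.ext
    show r (n + 1) * Ψ ((LinearMap.ker π).subtype k) = φ k
    have h3 : Ψ ((LinearMap.ker π).subtype k) = φ' k := by rw [← hΨ]; rfl
    rw [h3]
    exact hg _
  | succ j ih =>
    intro L _ _ _ hL
    obtain ⟨F, _, _, _, _, π, hπ⟩ := Module.exists_finite_presentation R L
    have hex : Function.Exact (LinearMap.ker π).subtype π := LinearMap.exact_subtype_ker_map π
    have h2 : EV R (j + 1) (LinearMap.ker π) B :=
      EV.con1 hex (LinearMap.ker π).subtype_injective hπ (EV.of_projective j) hL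
    exact EV.con3 hex (LinearMap.ker π).subtype_injective hπ (ih _ h2) (EV.of_projective _)

omit [IsNoetherianRing R] in
lemma exact_quot (J : Ideal B) : Function.Exact (J.subtype.restrictScalars R)
    ((Submodule.mkQ J).restrictScalars R) := by
  intro y
  show (Submodule.mkQ J) y = 0 ↔ y ∈ Set.range (J.subtype.restrictScalars R)
  rw [← LinearMap.mem_ker, Submodule.ker_mkQ]
  constructor
  · intro hy; exact ⟨⟨y, hy⟩, rfl⟩
  · rintro ⟨z, rfl⟩; exact z.2

omit [IsNoetherianRing R] in
lemma ev_quot_of (J : Ideal B) (L : Type u) [AddCommGroup L] [Module R L]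
    (j : ℕ) (h1 : EV R (j+1) L J) (h0 : EV R j L B) :
    EV R j L (B ⧸ J) := by
  have hinj : Function.Injective (J.subtype.restrictScalars R) :=
    fun x y hxy => Subtype.ext hxy
  have hsur : Function.Surjective
    ((Submodule.mkQ J).restrictScalars R) := Submodule.mkQ_surjective _
  exact EV.cov3 (exact_quot _) hinj hsur h0 h1

/-- vanishing for `B` in high degrees implies vanishing for the radical quotient -/
lemma ev_quot (hp : p.Prime) (h : Perf p B) (b : B) (L : Type u) [AddCommGroup L] [Module R L]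
    [Module.Finite R L] (i : ℕ) (hB : ∀ j ≥ i, EV R j L B) (j : ℕ) (hj : i ≤ j) :
    EV R j L (B ⧸ (Ideal.span {b}).radical) :=
  ev_quot_of _ L j (ev_radical hp h b j L (hB _ (Nat.le_succ_of_le hj))) (hB j hj)

lemma Perf.quot (hp : p.Prime) (h : Perf p B) (b : B) [Nontrivial B] :
    Perf p (B ⧸ (Ideal.span {b}).radical) := by
  have : Fact p.Prime := ⟨hp⟩
  have hc : CharP B p := (CharP.charP_iff_prime_eq_zero hp).2 h.char
  refine ⟨?_, ?_, ?_⟩
  · rw [← map_natCast (Ideal.Quotient.mk (Ideal.span {b}).radical), h.char, map_zero]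
  · intro x y hxy
    obtain ⟨x, rfl⟩ := Ideal.Quotient.mk_surjective x
    obtain ⟨y, rfl⟩ := Ideal.Quotient.mk_surjective y
    simp only at hxy
    rw [← map_pow, ← map_pow, Ideal.Quotient.eq, ← sub_pow_char] at hxy
    rw [Ideal.Quotient.eq]
    exact Ideal.radical_isRadical _ ⟨p, hxy⟩
  · intro x
    obtain ⟨x, rfl⟩ := Ideal.Quotient.mk_surjective x
    obtain ⟨y, hy⟩ := h.bij.2 x
    exact ⟨Ideal.Quotient.mk _ y, by simp only at hy ⊢; rw [← map_pow, hy]⟩

/-- Killing the elements of a list one after the other. -/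
lemma kill_list (hp : p.Prime) (k : Type u) [AddCommGroup k] [Module R k] [Module.Finite R k]
    (i : ℕ) (l : List R) :
    ∀ (B : Type u) [CommRing B] [Algebra R B] (_ : Perf p B)
      (κ : Type u) [CommRing κ] [IsReduced κ] [Nontrivial κ] (τ : B →+* κ)
      (_ : ∀ x ∈ l, τ (algebraMap R B x) = 0) (_ : ∀ j ≥ i, EV R j k B),
      ∃ (C : Type u) (_ : CommRing C) (_ : Algebra R C), Nontrivial C ∧
        Nonempty (B →ₐ[R] C) ∧ (∀ x ∈ l, algebraMap R C x = 0) ∧ ∀ j ≥ i, EV R j k C := by
  induction l with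
  | nil =>
    intro B _ _ hB κ _ _ _ τ _ hE
    have : Nontrivial B := τ.domain_nontrivial
    exact ⟨B, _, _, inferInstance, ⟨AlgHom.id R B⟩, fun x hx => by simp at hx, hE⟩
  | cons x l ih =>
    intro B _ _ hB κ _ _ _ τ hτ hE
    have : Nontrivial B := τ.domain_nontrivial
    set J := (Ideal.span {algebraMap R B x}).radical with hJ
    have hJτ : ∀ y ∈ J, τ y = 0 := by
      rintro y ⟨n, hn⟩
      obtain ⟨c, hc⟩ := Ideal.mem_span_singleton'.1 hn
      have : τ y ^ n = 0 := by
        rw [← map_pow, ← hc, map_mul, hτ x (by simp), mul_zero]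
      exact IsReduced.eq_zero _ ⟨n, this⟩
    let τ' : (B ⧸ J) →+* κ := Ideal.Quotient.lift J τ hJτ
    obtain ⟨C, _, _, hC1, ⟨σ⟩, hC2, hC3⟩ := ih (B ⧸ J) (hB.quot hp (algebraMap R B x)) κ τ'
      (fun y hy => by
        show τ' (algebraMap R (B ⧸ J) y) = 0
        have : algebraMap R (B ⧸ J) y = Ideal.Quotient.mk J (algebraMap R B y) := rfl
        rw [this, Ideal.Quotient.lift_mk]
        exact hτ y (by simp [hy]))
      (fun j hj => ev_quot hp hB (algebraMap R B x) k i hE j hj)
    refine ⟨C, _, _, hC1, ⟨σ.comp (Ideal.Quotient.mkₐ R J)⟩, ?_, hC3⟩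
    intro y hy
    rcases List.mem_cons.1 hy with rfl | hy
    · rw [← σ.commutes]
      have : algebraMap R (B ⧸ J) y = Ideal.Quotient.mk J (algebraMap R B y) := rfl
      rw [this, Ideal.Quotient.eq_zero_iff_mem.2, map_zero]
      exact Ideal.le_radical (Ideal.subset_span rfl)
    · exact hC2 y hy

end

end Pool.Agent.Q37.PC
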