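import Pool.Agent.Q37.PC.Abs

/-!
# `Ext^j_R(k, k) = 0` for one `j ≥ 1` implies that `R` is regular (induction)
-/

namespace Pool.Agent.Q37.PC

open CategoryTheory IsLocalRing TensorProduct

universe u

section local_

variable {R : Type u} [CommRing R] [IsLocalRing R] [IsNoetherianRing R]

omit [IsNoetherianRing R] in
lemma maxIdeal_eq_bot_of_free (h : Module.Free R (ResidueField R)) : maximalIdeal R = ⊥ := by
  rw [Submodule.eq_bot_iff]
  intro a ha
  let b := Module.Free.chooseBasis R (ResidueField R)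
  have hne : Nonempty (Module.Free.ChooseBasisIndex R (ResidueField R)) := b.index_nonempty
  obtain ⟨i⟩ := hne
  have h1 : a • b i = 0 := by
    rw [Algebra.smul_def]
    have : algebraMap R (ResidueField R) a = 0 := by
      rwa [ResidueField.algebraMap_eq, residue_eq_zero_iff]
    rw [this, zero_mul]
  have := congrArg (fun w => b.repr w i) h1
  simpa using this

/-- prime avoidance -/
lemma exists_good (hm : maximalIdeal R ≠ ⊥)
    (hsoc : ¬ ∃ s : R, s ≠ 0 ∧ ∀ a ∈ maximalIdeal R, a * s = 0) :
    ∃ x ∈ maximalIdeal R, x ∉ maximalIdeal R ^ 2 ∧ x ∈ nonZeroDivisors R := by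
  classical
  have hfin := associatedPrimes.finite R R
  by_contra hcon
  have h1 : (maximalIdeal R : Set R) ⊆
      ⋃ i ∈ (↑(insert (maximalIdeal R ^ 2) hfin.toFinset) : Set (Ideal R)), (id i : Ideal R) := by
    intro x hx
    by_contra hx2
    simp only [Finset.coe_insert, Set.Finite.coe_toFinset, Set.mem_insert_iff, Set.mem_iUnion,
      id, not_exists] at hx2
    apply hcon
    refine ⟨x, hx, hx2 _ (Or.inl rfl), ?_⟩
    by_contra hx3
    have h2 : x ∈ ((nonZeroDivisors R : Set R))ᶜ := hx3
    rw [← biUnion_associatedPrimes_eq_compl_nonZeroDivisors] at h2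
    simp only [Set.mem_iUnion] at h2
    obtain ⟨p, hp, hxp⟩ := h2
    exact hx2 p (Or.inr hp) hxp
  rw [Ideal.subset_union_prime (maximalIdeal R ^ 2) (maximalIdeal R ^ 2)] at h1
  · obtain ⟨i, hi, hle⟩ := h1
    rw [Finset.mem_insert] at hi
    rcases hi with rfl | hi
    · apply hm
      refine Submodule.eq_bot_of_le_smul_of_le_jacobson_bot (maximalIdeal R) _
        ((maximalIdeal R).fg_of_isNoetherianRing) ?_ ?_
      · simpa [pow_two] using hle
      · exact maximalIdeal_le_jacobson _
    · rw [Set.Finite.mem_toFinset] at hi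
      have hi' : IsAssociatedPrime i R := hi
      rw [isAssociatedPrime_iff] at hi'
      obtain ⟨hprime, s, hs⟩ := hi'
      apply hsoc
      refine ⟨s, ?_, ?_⟩
      · rintro rfl
        apply hprime.ne_top
        rw [hs, eq_top_iff]
        intro a _
        simp [Submodule.mem_colon_singleton]
      · intro a ha
        have h3 : a ∈ i := hle ha
        rw [hs, Submodule.mem_colon_singleton] at h3
        simpa using h3
  · intro i hi h2 _
    rw [Finset.mem_insert] at hi
    rcases hi with rfl | hi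
    · exact absurd rfl h2
    · rw [Set.Finite.mem_toFinset] at hi
      exact IsAssociatedPrime.isPrime hi

/-- generators of `𝔪` from generators of the maximal ideal of `R/x` -/
lemma spanFinrank_le_succ (x : R) (hx : x ∈ maximalIdeal R)
    [IsLocalRing (R ⧸ Ideal.span {x})] :
    (maximalIdeal R).spanFinrank ≤ (maximalIdeal (R ⧸ Ideal.span {x})).spanFinrank + 1 := by
  classical
  have hmap : (maximalIdeal R).map (Ideal.Quotient.mk (Ideal.span {x})) =
      maximalIdeal (R ⧸ Ideal.span {x}) :=
    map_maximalIdeal_of_surjective _ Ideal.Quotient.mk_surjective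
  have hcomap : ∀ a : R, a ∈ maximalIdeal R ↔
      Ideal.Quotient.mk (Ideal.span {x}) a ∈ maximalIdeal (R ⧸ Ideal.span {x}) := by
    intro a
    constructor
    · intro ha
      rw [← hmap]
      exact Ideal.mem_map_of_mem _ ha
    · intro ha
      rw [← hmap, Ideal.mem_map_iff_of_surjective _ Ideal.Quotient.mk_surjective] at ha
      obtain ⟨b, hb, hab⟩ := ha
      rw [Ideal.Quotient.eq] at hab
      have h1 : b - a ∈ maximalIdeal R :=
        (Ideal.span_singleton_le_iff_mem _).2 hx hab
      have := (maximalIdeal R).sub_mem hb h1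
      simpa using this
  set G := (maximalIdeal (R ⧸ Ideal.span {x})).generators with hG
  have hGfg : (maximalIdeal (R ⧸ Ideal.span {x})).FG := IsNoetherian.noetherian _
  have hGfin : G.Finite := Submodule.FG.finite_generators hGfg
  have hGcard : G.ncard = (maximalIdeal (R ⧸ Ideal.span {x})).spanFinrank :=
    Submodule.FG.generators_ncard hGfg
  have hGspan : Ideal.span G = maximalIdeal (R ⧸ Ideal.span {x}) :=
    Submodule.span_generators _
  let sec : (R ⧸ Ideal.span {x}) → R := Function.surjInv Ideal.Quotient.mk_surjective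
  have hsec : ∀ y, Ideal.Quotient.mk (Ideal.span {x}) (sec y) = y :=
    Function.surjInv_eq Ideal.Quotient.mk_surjective
  have hspan : Ideal.span (insert x (sec '' G)) = maximalIdeal R := by
    apply le_antisymm
    · rw [Ideal.span_le]
      rintro y (rfl | ⟨z, hz, rfl⟩)
      · exact hx
      · show sec z ∈ maximalIdeal R
        rw [hcomap, hsec, ← hGspan]
        exact Ideal.subset_span hz
    · intro a ha
      rw [hcomap, ← hGspan] at ha
      have h2 : G = Ideal.Quotient.mk (Ideal.span {x}) '' (sec '' G) := by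
        rw [Set.image_image]
        simp [hsec]
      rw [h2, ← Ideal.map_span, Ideal.mem_map_iff_of_surjective _
        Ideal.Quotient.mk_surjective] at ha
      obtain ⟨b, hb, hab⟩ := ha
      rw [Ideal.Quotient.eq] at hab
      rw [Ideal.span_insert]
      have : a = -(b - a) + b := by ring
      rw [this]
      exact Submodule.add_mem_sup (neg_mem hab) hb
  rw [← hspan, ← hGcard]
  refine (Submodule.spanFinrank_span_le_ncard_of_finite ((hGfin.image _).insert _)).trans ?_
  refine (Set.ncard_insert_le _ _).trans ?_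
  exact Nat.add_le_add_right (Set.ncard_image_le hGfin) 1

/-- The residue field of `R/x` is a retract of `𝔪/x𝔪` if `x ∉ 𝔪²`. -/
lemma exists_retract (x : R) (hx : x ∈ maximalIdeal R) (hx2 : x ∉ maximalIdeal R ^ 2)
    [IsLocalRing (R ⧸ Ideal.span {x})] :
    ∃ (i : ResidueField (R ⧸ Ideal.span {x}) →ₗ[R ⧸ Ideal.span {x}]
        (maximalIdeal R ⧸ (Ideal.span {x} • ⊤ : Submodule R (maximalIdeal R))))
      (r : (maximalIdeal R ⧸ (Ideal.span {x} • ⊤ : Submodule R (maximalIdeal R)))
        →ₗ[R ⧸ Ideal.span {x}] ResidueField (R ⧸ Ideal.span {x})),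
      r ∘ₗ i = LinearMap.id := by
  have hsurj : Function.Surjective (algebraMap R (R ⧸ Ideal.span {x})) :=
    Ideal.Quotient.mk_surjective
  have hmap : (maximalIdeal R).map (Ideal.Quotient.mk (Ideal.span {x})) =
      maximalIdeal (R ⧸ Ideal.span {x}) :=
    map_maximalIdeal_of_surjective _ Ideal.Quotient.mk_surjective
  -- functional
  obtain ⟨φ, hφ⟩ : ∃ φ : maximalIdeal R →ₗ[R] ResidueField R, φ ⟨x, hx⟩ = 1 := by
    have h1 : (maximalIdeal R).toCotangent ⟨x, hx⟩ ≠ 0 := by
      rw [Ne, Ideal.toCotangent_eq_zero]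
      exact hx2
    have h2 : ∃ lam : Module.Dual (ResidueField R) (CotangentSpace R),
        lam ((maximalIdeal R).toCotangent ⟨x, hx⟩) ≠ 0 := by
      by_contra hcon
      push Not at hcon
      exact h1 ((Module.forall_dual_apply_eq_zero_iff (ResidueField R) _).1 hcon)
    obtain ⟨lam, hlam⟩ := h2
    refine ⟨(((lam ((maximalIdeal R).toCotangent ⟨x, hx⟩))⁻¹ • lam).restrictScalars R) ∘ₗ
      (maximalIdeal R).toCotangent, ?_⟩
    show (lam ((maximalIdeal R).toCotangent ⟨x, hx⟩))⁻¹ •
      (lam ((maximalIdeal R).toCotangent ⟨x, hx⟩)) = 1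
    rw [smul_eq_mul, inv_mul_cancel₀ hlam]
  have hkill : ∀ a ∈ maximalIdeal R, algebraMap R (ResidueField (R ⧸ Ideal.span {x})) a = 0 := by
    intro a ha
    rw [IsScalarTower.algebraMap_apply R (R ⧸ Ideal.span {x}), ResidueField.algebraMap_eq,
      residue_eq_zero_iff, ← hmap]
    exact Ideal.mem_map_of_mem _ ha
  -- the map between residue fields
  obtain ⟨ρ, hρ⟩ : ∃ ρ : ResidueField R →ₗ[R] ResidueField (R ⧸ Ideal.span {x}), ρ 1 = 1 := by
    refine ⟨Submodule.liftQ (maximalIdeal R) (LinearMap.toSpanSingleton R _ 1) ?_, ?_⟩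
    · intro a ha
      rw [LinearMap.mem_ker, LinearMap.toSpanSingleton_apply, Algebra.smul_def, hkill a ha,
        zero_mul]
    · show (LinearMap.toSpanSingleton R (ResidueField (R ⧸ Ideal.span {x})) 1) 1 = 1
      rw [LinearMap.toSpanSingleton_apply, one_smul]
  have hk : (Ideal.span {x} • ⊤ : Submodule R (maximalIdeal R)) ≤ LinearMap.ker (ρ ∘ₗ φ) := by
    intro y hy
    rw [LinearMap.mem_ker]
    refine Submodule.smul_induction_on hy (fun a ha z _ => ?_) (fun a b ha hb => ?_)
    · rw [map_smul, Algebra.smul_def, hkill a ((Ideal.span_singleton_le_iff_mem _).2 hx ha),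
        zero_mul]
    · rw [map_add, ha, hb, add_zero]
  let r := (Submodule.liftQ _ (ρ ∘ₗ φ) hk).extendScalarsOfSurjective hsurj
  have hi : maximalIdeal (R ⧸ Ideal.span {x}) ≤ LinearMap.ker
      (LinearMap.toSpanSingleton (R ⧸ Ideal.span {x})
        (maximalIdeal R ⧸ (Ideal.span {x} • ⊤ : Submodule R (maximalIdeal R)))
        (Submodule.Quotient.mk ⟨x, hx⟩)) := by
    intro a ha
    rw [← hmap, Ideal.mem_map_iff_of_surjective _ Ideal.Quotient.mk_surjective] at ha
    obtain ⟨b, hb, rfl⟩ := ha
    rw [LinearMap.mem_ker, LinearMap.toSpanSingleton_apply]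
    show (Submodule.Quotient.mk (b • (⟨x, hx⟩ : maximalIdeal R)) :
      (maximalIdeal R ⧸ (Ideal.span {x} • ⊤ : Submodule R (maximalIdeal R)))) = 0
    rw [Submodule.Quotient.mk_eq_zero]
    have : b • (⟨x, hx⟩ : maximalIdeal R) = x • (⟨b, hb⟩ : maximalIdeal R) := by
      apply Subtype.ext
      show b * x = x * b
      ring
    rw [this]
    exact Submodule.smul_mem_smul (Ideal.subset_span rfl) trivial
  refine ⟨Submodule.liftQ (maximalIdeal (R ⧸ Ideal.span {x})) _ hi, r, ?_⟩
  apply LinearMap.ext
  intro y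
  obtain ⟨a, rfl⟩ := Submodule.Quotient.mk_surjective _ y
  obtain ⟨b, rfl⟩ := Ideal.Quotient.mk_surjective a
  show r ((Ideal.Quotient.mk (Ideal.span {x}) b) • (Submodule.Quotient.mk ⟨x, hx⟩)) = _
  rw [map_smul]
  have h3 : r (Submodule.Quotient.mk ⟨x, hx⟩) = 1 := by
    show ρ (φ ⟨x, hx⟩) = 1
    rw [hφ, hρ]
  rw [h3, Algebra.smul_def, mul_one]
  rfl

end local_

/-- `Ext^{j+1}(k,k) = 0` gives `Ext^j(𝔪,k) = 0`. -/
lemma ev_maxIdeal {R : Type u} [CommRing R] [IsLocalRing R] [IsNoetherianRing R] (j : ℕ)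
    (h : EV R (j + 2) (ResidueField R) (ResidueField R)) :
    EV R (j + 1) (maximalIdeal R) (ResidueField R) := by
  have hex : Function.Exact (maximalIdeal R).subtype (Algebra.linearMap R (ResidueField R)) := by
    intro y
    rw [Algebra.linearMap_apply, ResidueField.algebraMap_eq, residue_eq_zero_iff]
    constructor
    · intro hy; exact ⟨⟨y, hy⟩, rfl⟩
    · rintro ⟨z, rfl⟩; exact z.2
  exact EV.con1 hex (maximalIdeal R).subtype_injective residue_surjective
    (EV.of_projective j) h

/-- **Auslander–Buchsbaum–Serre**, in the form we need. -/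
theorem regular_of_ev : ∀ (d : ℕ) (R : Type u) [CommRing R] [IsLocalRing R] [IsNoetherianRing R],
    ringKrullDim R ≤ d → (∃ j : ℕ, EV R (j + 1) (ResidueField R) (ResidueField R)) →
      IsRegularLocalRing R := by
  intro d
  induction d with
  | zero =>
    intro R _ _ _ hd ⟨j, hj⟩
    by_cases hm : maximalIdeal R = ⊥
    · apply IsRegularLocalRing.of_spanFinrank_maximalIdeal_le
      rw [hm, Submodule.spanFinrank_bot]
      exact_mod_cast ringKrullDim_nonneg_of_nontrivial
    exfalso
    by_cases hsoc : ∃ s : R, s ≠ 0 ∧ ∀ a ∈ maximalIdeal R, a * s = 0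
    · obtain ⟨s, hs0, hs⟩ := hsoc
      exact hm (maxIdeal_eq_bot_of_free (free_of_soc s hs0 hs j _ hj))
    obtain ⟨x, hx, hx2, hx3⟩ := exists_good hm hsoc
    have hnt : Nontrivial (R ⧸ Ideal.span {x}) := by
      rw [Ideal.Quotient.nontrivial_iff]
      intro htop
      have := (Ideal.span_singleton_le_iff_mem (maximalIdeal R)).2 hx
      rw [htop, top_le_iff] at this
      exact (Ideal.IsPrime.ne_top inferInstance) this
    have h1 := (ringKrullDim_quotient_succ_le_of_nonZeroDivisor hx3).trans hd
    have h2 : (0 : WithBot ℕ∞) ≤ ringKrullDim (R ⧸ Ideal.span {x}) :=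
      ringKrullDim_nonneg_of_nontrivial
    have h3 : (1 : WithBot ℕ∞) ≤ 0 := by
      calc (1 : WithBot ℕ∞) = 0 + 1 := by rw [zero_add]
        _ ≤ ringKrullDim (R ⧸ Ideal.span {x}) + 1 := by gcongr
        _ ≤ _ := by simpa using h1
    exact absurd h3 (by decide)
  | succ d ih =>
    intro R _ _ _ hd ⟨j, hj⟩
    by_cases hm : maximalIdeal R = ⊥
    · apply IsRegularLocalRing.of_spanFinrank_maximalIdeal_le
      rw [hm, Submodule.spanFinrank_bot]
      exact_mod_cast ringKrullDim_nonneg_of_nontrivial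
    by_cases hsoc : ∃ s : R, s ≠ 0 ∧ ∀ a ∈ maximalIdeal R, a * s = 0
    · obtain ⟨s, hs0, hs⟩ := hsoc
      exact absurd (maxIdeal_eq_bot_of_free (free_of_soc s hs0 hs j _ hj)) hm
    obtain ⟨x, hx, hx2, hx3⟩ := exists_good hm hsoc
    have hnt : Nontrivial (R ⧸ Ideal.span {x}) := by
      rw [Ideal.Quotient.nontrivial_iff]
      intro htop
      have := (Ideal.span_singleton_le_iff_mem (maximalIdeal R)).2 hx
      rw [htop, top_le_iff] at this
      exact (Ideal.IsPrime.ne_top inferInstance) this
    have hloc : IsLocalRing (R ⧸ Ideal.span {x}) :=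
      IsLocalRing.of_surjective' (Ideal.Quotient.mk _) Ideal.Quotient.mk_surjective
    cases j with
    | zero => exact absurd (maxIdeal_eq_bot_of_free (free_of_ev_one _ hj)) hm
    | succ j =>
      have h1 := ev_maxIdeal j hj
      have h2 := descend x hx3 j (maximalIdeal R) (fun m hm => by
        apply Subtype.ext
        have h3 : x * (m : R) = 0 := congrArg Subtype.val hm
        have h4 := (mul_right_mem_nonZeroDivisors_eq_zero_iff hx3).1
          (by rw [mul_comm] at h3; exact h3)
        exact h4) h1 (ResidueField (R ⧸ Ideal.span {x}))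
      obtain ⟨i, r, hir⟩ := exists_retract x hx hx2
      have h5 := EV.retract_left i r hir h2
      have hdim := ringKrullDim_quotient_succ_le_of_nonZeroDivisor hx3
      have hd' : ringKrullDim (R ⧸ Ideal.span {x}) ≤ d := by
        have h6 := hdim.trans hd
        have h7 : ((d + 1 : ℕ) : WithBot ℕ∞) = (d : WithBot ℕ∞) + 1 := by push_cast; rfl
        rw [h7] at h6
        exact (ENat.WithBot.add_le_add_one_right_iff).1 h6
      have h8 := ih (R ⧸ Ideal.span {x}) hd' ⟨j, h5⟩
      apply IsRegularLocalRing.of_spanFinrank_maximalIdeal_le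
      have h9 := h8.spanFinrank_maximalIdeal
      have h10 : ((maximalIdeal R).spanFinrank : WithBot ℕ∞) ≤
          ((maximalIdeal (R ⧸ Ideal.span {x})).spanFinrank : WithBot ℕ∞) + 1 := by
        exact_mod_cast spanFinrank_le_succ x hx
      rw [h9] at h10
      exact h10.trans hdim

end Pool.Agent.Q37.PC
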