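import Pool.Agent.Q37.PC.ExtLem

/-!
# Rigidity: `Ext^i(k, M) = 0` with `i ≥ dim R` forces `Ext^j(k, M) = 0` for `j ≥ i`
-/

namespace Pool.Agent.Q37.PC

open CategoryTheory IsLocalRing

universe u

/-- every element of the list acts locally nilpotently on `e` -/
def PT {R E : Type u} [CommRing R] [AddCommGroup E] [Module R E] (l : List R) (e : E) : Prop :=
  ∀ x ∈ l, ∃ n : ℕ, x ^ n • e = 0

/-- Division by a power of `x` up to `x`-torsion in an injective module. -/
lemma exists_div {R E : Type u} [CommRing R] [IsNoetherianRing R] [AddCommGroup E] [Module R E]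
    [Module.Injective R E] (e : E) (x : R) (n : ℕ) :
    ∃ (e' : E) (N : ℕ), x ^ N • e = x ^ (N + n) • e' ∧ ∀ a : R, a • e = 0 → a • e' = 0 := by
  classical
  let J : Ideal R := LinearMap.ker (LinearMap.toSpanSingleton R E e)
  have hJ : ∀ a : R, a ∈ J ↔ a • e = 0 := fun a => by
    simp [J, LinearMap.mem_ker, LinearMap.toSpanSingleton_apply]
  -- the chain (J : x^m)
  let c : ℕ →o Ideal R :=
    { toFun := fun m => Submodule.comap (LinearMap.lsmul R R (x ^ m)) J
      monotone' := by
        refine monotone_nat_of_le_succ fun m a ha => ?_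
        simp only [Submodule.mem_comap, LinearMap.lsmul_apply, smul_eq_mul] at ha ⊢
        rw [pow_succ', mul_assoc]
        exact J.mul_mem_left _ ha }
  obtain ⟨N, hN⟩ := monotone_stabilizes_iff_noetherian.2 (inferInstance : IsNoetherian R R) c
  have hst : ∀ r : R, x ^ (N + n) * r ∈ J → x ^ N * r ∈ J := by
    intro r hr
    have h1 : r ∈ c (N + n) := by simpa [c] using hr
    rw [← hN (N + n) (Nat.le_add_right _ _)] at h1
    simpa [c] using h1
  let K : Ideal R := Submodule.comap (LinearMap.lsmul R R (x ^ (N + n))) J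
  let μ : (R ⧸ K) →ₗ[R] (R ⧸ J) := Submodule.mapQ K J (LinearMap.lsmul R R (x ^ (N + n))) le_rfl
  have hμ : Function.Injective μ := by
    rw [← LinearMap.ker_eq_bot]
    rw [Submodule.eq_bot_iff]
    intro y hy
    obtain ⟨r, rfl⟩ := Submodule.Quotient.mk_surjective K y
    rw [LinearMap.mem_ker] at hy
    simp only [μ, Submodule.mapQ_apply] at hy
    rw [Submodule.Quotient.mk_eq_zero] at hy ⊢
    exact hy
  let g : (R ⧸ K) →ₗ[R] E := Submodule.liftQ K (LinearMap.toSpanSingleton R E (x ^ N • e)) (by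
    intro r hr
    have h1 : x ^ (N + n) * r ∈ J := hr
    have h2 := (hJ _).1 (hst r h1)
    rw [LinearMap.mem_ker, LinearMap.toSpanSingleton_apply, smul_smul, mul_comm]
    exact h2)
  obtain ⟨h, hh⟩ := Module.Injective.out μ hμ g
  refine ⟨h (Submodule.Quotient.mk 1), N, ?_, ?_⟩
  · have h1 := hh (Submodule.Quotient.mk 1)
    simp only [μ, g, Submodule.mapQ_apply, Submodule.liftQ_apply,
      LinearMap.toSpanSingleton_apply, one_smul, LinearMap.lsmul_apply] at h1
    rw [← h1, ← map_smul, ← Submodule.Quotient.mk_smul]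
  · intro a ha
    rw [← map_smul, ← Submodule.Quotient.mk_smul]
    have : a • (1 : R) ∈ J := by
      rw [smul_eq_mul, mul_one]; exact (hJ a).2 ha
    rw [(Submodule.Quotient.mk_eq_zero J).2 this, map_zero]

/-- `n`-th cosyzygies. -/
def CS (R : Type u) [CommRing R] : ℕ → ModuleCat.{u} R → Prop
  | 0, _ => True
  | n + 1, M => ∃ (A E : ModuleCat.{u} R) (f : A →ₗ[R] E) (g : E →ₗ[R] M),
      Function.Exact f g ∧ Function.Injective f ∧ Function.Surjective g ∧
      Module.Injective R E ∧ CS R n A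

lemma CS.pred {R : Type u} [CommRing R] : ∀ {n : ℕ} {M : ModuleCat.{u} R},
    CS R (n + 1) M → CS R n M := by
  intro n
  induction n with
  | zero => intro M _; trivial
  | succ n ih =>
    rintro M ⟨A, E, f, g, h1, h2, h3, h4, h5⟩
    exact ⟨A, E, f, g, h1, h2, h3, h4, ih h5⟩

lemma CS.mono {R : Type u} [CommRing R] {m n : ℕ} (h : m ≤ n) {M : ModuleCat.{u} R}
    (hM : CS R n M) : CS R m M := by
  induction n, h using Nat.le_induction with
  | base => exact hM
  | succ n _ ih => exact ih hM.pred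

/-- Lifting torsion elements along `E → C` with kernel an `|l|`-th cosyzygy. -/
lemma lift_torsion {R : Type u} [CommRing R] [IsNoetherianRing R] :
    ∀ (l : List R) (A E C : ModuleCat.{u} R) (f : A →ₗ[R] E) (g : E →ₗ[R] C),
      Function.Exact f g → Function.Injective f → Function.Surjective g →
      Module.Injective R E → CS R l.length A →
      ∀ s : C, PT l s → ∃ e : E, g e = s ∧ PT l e := by
  intro l
  induction l with
  | nil =>
    intro A E C f g _ _ h3 _ _ s _
    obtain ⟨e, he⟩ := h3 s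
    exact ⟨e, he, fun x hx => by simp at hx⟩
  | cons x l ih =>
    intro A E C f g h1 h2 h3 h4 h5 s hs
    have h5' : CS R l.length A := CS.pred h5
    obtain ⟨A', E', f', g', k1, k2, k3, k4, k5⟩ := h5
    obtain ⟨n, hn⟩ := hs x (by simp)
    obtain ⟨e, he, hel⟩ := ih A E C f g h1 h2 h3 h4 h5' s (fun y hy => hs y (by simp [hy]))
    -- x^n e comes from A
    have hxe : g (x ^ n • e) = 0 := by rw [map_smul, he, hn]
    obtain ⟨a, ha⟩ := (h1 _).1 hxe
    have hal : PT l a := by
      intro y hy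
      obtain ⟨m, hm⟩ := hel y hy
      refine ⟨m, h2 ?_⟩
      rw [map_smul, ha, map_zero, smul_comm, hm, smul_zero]
    obtain ⟨e', he', hel'⟩ := ih A' E' A f' g' k1 k2 k3 k4 k5 a hal
    obtain ⟨e'', N, hN, hann⟩ := exists_div e' x n
    refine ⟨e - f (g' e''), ?_, ?_⟩
    · rw [map_sub, he, h1.apply_apply_eq_zero, sub_zero]
    · intro y hy
      rcases List.mem_cons.1 hy with rfl | hy
      · refine ⟨N + n, ?_⟩
        have e1 : y ^ (N + n) • e = y ^ N • f a := by
          rw [ha, smul_smul, pow_add]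
        have e2 : y ^ (N + n) • f (g' e'') = y ^ N • f a := by
          rw [← map_smul, ← map_smul, ← hN, map_smul, he', map_smul]
        rw [smul_sub, e1, e2, sub_self]
      · obtain ⟨m1, hm1⟩ := hel y hy
        obtain ⟨m2, hm2⟩ := hel' y hy
        refine ⟨m1 + m2, ?_⟩
        have e1 : y ^ (m1 + m2) • e = 0 := by
          rw [add_comm, pow_add, mul_smul, hm1, smul_zero]
        have e2 : y ^ (m1 + m2) • e'' = 0 := by
          rw [pow_add, mul_smul, hann _ hm2, smul_zero]
        rw [smul_sub, e1, ← map_smul, ← map_smul, e2, map_zero, map_zero, sub_zero]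

section local_

variable {R : Type u} [CommRing R] [IsNoetherianRing R] [IsLocalRing R]

lemma exists_sop : ∃ l : List R, (l.length : WithBot ℕ∞) = ringKrullDim R ∧
    maximalIdeal R ≤ (Ideal.span {x | x ∈ l}).radical ∧ ∀ x ∈ l, x ∈ maximalIdeal R := by
  classical
  obtain ⟨s, hs, hc⟩ := Ideal.exists_finset_card_eq_height_of_isNoetherianRing (maximalIdeal R)
  refine ⟨s.toList, ?_, ?_, fun x hx => hs.1.2 (Ideal.subset_span (by simpa using hx))⟩
  · rw [Finset.length_toList, ← IsLocalRing.maximalIdeal_height_eq_ringKrullDim, ← hc]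
    rfl
  · have hset : {x | x ∈ s.toList} = (s : Set R) := by ext; simp
    rw [hset, Ideal.radical_eq_sInf]
    refine le_sInf fun q hq => ?_
    have hq' : q.IsPrime := hq.2
    exact hs.2 ⟨hq.2, hq.1⟩ (le_maximalIdeal hq'.ne_top)

/-- Dévissage: finitely generated modules killed by a power of the maximal ideal. -/
lemma EV.devissage {j : ℕ} {Y : Type u} [AddCommGroup Y] [Module R Y]
    (h : EV R j (R ⧸ maximalIdeal R) Y) (P : Type u) [AddCommGroup P] [Module R P]
    [Module.Finite R P] : (∃ t : ℕ, ∀ a ∈ maximalIdeal R ^ t, ∀ p : P, a • p = 0) →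
      EV R j P Y := by
  refine IsNoetherianRing.induction_on_isQuotientEquivQuotientPrime R (M := P) inferInstance
    (motive := fun N _ _ _ => (∃ t : ℕ, ∀ a ∈ maximalIdeal R ^ t, ∀ p : N, a • p = 0) →
      EV R j N Y) ?_ ?_ ?_
  · intro N _ _ _ _ _
    refine EV.mk fun x => ?_
    have h0 : 𝟙 (ModuleCat.of R N) = 0 := by
      ext y
      exact Subsingleton.elim (α := N) _ _
    rw [← Abelian.Ext.mk₀_id_comp x, h0, Abelian.Ext.mk₀_zero, Abelian.Ext.zero_comp]
  · intro N _ _ _ p e ⟨t, ht⟩
    have hp : p.1 = maximalIdeal R := by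
      refine le_antisymm (le_maximalIdeal p.2.ne_top) ?_
      have h1 : maximalIdeal R ^ t ≤ p.1 := by
        intro a ha
        have h2 := ht a ha (e.symm (Submodule.Quotient.mk 1))
        rw [← map_smul, ← Submodule.Quotient.mk_smul, LinearEquiv.map_eq_zero_iff,
          Submodule.Quotient.mk_eq_zero, smul_eq_mul, mul_one] at h2
        exact h2
      exact p.2.le_of_pow_le h1
    exact EV.congr_left ((Submodule.quotEquivOfEq _ _ hp.symm).trans e.symm) h
  · intro N₁ _ _ _ N₂ _ _ _ N₃ _ _ _ f g hf hg hfg h1 h3 ⟨t, ht⟩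
    refine EV.con2 hfg hf hg (h1 ⟨t, fun a ha p => hf ?_⟩) (h3 ⟨t, fun a ha p => ?_⟩)
    · rw [map_smul, ht a ha, map_zero]
    · obtain ⟨q, rfl⟩ := hg p
      rw [← map_smul, ht a ha, map_zero]

omit [IsNoetherianRing R] [IsLocalRing R] in
lemma inj_of_obj (J : ModuleCat.{u} R) (h : Injective J) : Module.Injective R J :=
  Module.injective_module_of_injective_object (R := R) (M := J) (inj := h)

/-- The rigidity step. -/
lemma rigid_step (l : List R) (hl : maximalIdeal R ≤ (Ideal.span {x | x ∈ l}).radical)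
    (hl2 : ∀ x ∈ l, x ∈ maximalIdeal R)
    (A E B : ModuleCat.{u} R) (f : A →ₗ[R] E) (g : E →ₗ[R] B)
    (h1 : Function.Exact f g) (h2 : Function.Injective f) (h3 : Function.Surjective g)
    (h4 : Module.Injective R E) (hB : CS R l.length B)
    (hA : EV R 1 (R ⧸ maximalIdeal R) A) : EV R 1 (R ⧸ maximalIdeal R) B := by
  classical
  -- embed `B` in an injective module
  obtain ⟨pr⟩ := EnoughInjectives.presentation B
  have hJi : Module.Injective R pr.J := inj_of_obj pr.J pr.injective
  set E' := pr.J with hE'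
  let ι : B →ₗ[R] E' := pr.f.hom
  have hι : Function.Injective ι := (ModuleCat.mono_iff_injective pr.f).1 pr.mono
  let π : E' →ₗ[R] (E' ⧸ LinearMap.range ι) := (LinearMap.range ι).mkQ
  have hπ : Function.Surjective π := Submodule.mkQ_surjective _
  have hex : Function.Exact ι π := fun y => by
    rw [← LinearMap.mem_ker, Submodule.ker_mkQ]; rfl
  refine EV.of_lift hex hι hπ (EV.of_injective 0) fun φ => ?_
  set s := φ (Submodule.Quotient.mk 1) with hs
  have hsm : ∀ a ∈ maximalIdeal R, a • s = 0 := by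
    intro a ha
    rw [hs, ← map_smul, ← Submodule.Quotient.mk_smul]
    have : a • (1 : R) ∈ maximalIdeal R := by rwa [smul_eq_mul, mul_one]
    rw [(Submodule.Quotient.mk_eq_zero (maximalIdeal R)).2 this, map_zero]
  obtain ⟨e, he, hel⟩ := lift_torsion l B E' (ModuleCat.of R (E' ⧸ LinearMap.range ι)) ι π hex hι hπ
    hJi hB s (fun x hx => ⟨1, by rw [pow_one]; exact hsm x (hl2 x hx)⟩)
  -- a power of the maximal ideal kills `e`
  obtain ⟨t, ht⟩ : ∃ t : ℕ, ∀ a ∈ maximalIdeal R ^ t, a • e = 0 := by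
    let J : Ideal R := LinearMap.ker (LinearMap.toSpanSingleton R E' e)
    have hJ : ∀ a : R, a ∈ J ↔ a • e = 0 := fun a => by
      simp [J, LinearMap.mem_ker, LinearMap.toSpanSingleton_apply]
    have h5 : Ideal.span {x | x ∈ l} ≤ J.radical := by
      rw [Ideal.span_le]
      intro x hx
      obtain ⟨n, hn⟩ := hel x hx
      exact ⟨n, (hJ _).2 hn⟩
    have h6 : maximalIdeal R ≤ J.radical :=
      hl.trans (Ideal.radical_le_radical_iff.2 h5)
    obtain ⟨t, ht⟩ := Ideal.exists_pow_le_of_le_radical_of_fg h6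
      ((maximalIdeal R).fg_of_isNoetherianRing)
    exact ⟨t, fun a ha => (hJ a).1 (ht ha)⟩
  let P : Submodule R E' := Submodule.map (LinearMap.toSpanSingleton R E' e) (maximalIdeal R)
  have hPr : ∀ y ∈ P, y ∈ LinearMap.range ι := by
    rintro y ⟨a, ha, rfl⟩
    have : π (a • e) = 0 := by
      rw [map_smul, he]; exact hsm a ha
    rw [LinearMap.toSpanSingleton_apply]
    exact (hex _).1 this
  have hPfin : Module.Finite R P := by
    have : (P : Submodule R E').FG := Submodule.FG.map _ ((maximalIdeal R).fg_of_isNoetherianRing)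
    exact Module.Finite.iff_fg.2 this
  have hEVP : EV R 1 P A := by
    refine EV.devissage hA P ⟨t, ?_⟩
    rintro a ha ⟨y, b, hb, rfl⟩
    apply Subtype.ext
    show a • (LinearMap.toSpanSingleton R E' e b) = 0
    rw [LinearMap.toSpanSingleton_apply, smul_comm, ht a ha, smul_zero]
  -- `P → B`
  let ιe : B ≃ₗ[R] LinearMap.range ι := LinearEquiv.ofInjective ι hι
  let θ : P →ₗ[R] B := ιe.symm.toLinearMap ∘ₗ (Submodule.inclusion (fun y hy => hPr y hy))
  have hθ : ∀ y : P, ι (θ y) = y := by
    intro y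
    have h7 : (ιe (θ y) : E') = ι (θ y) := LinearEquiv.ofInjective_apply ι (θ y)
    rw [← h7]
    simp [θ]
  obtain ⟨θ', hθ'⟩ := EV.lift h1 h2 h3 hEVP θ
  obtain ⟨H, hH⟩ := Module.Injective.out P.subtype P.subtype_injective θ'
  set e₁ := e - ι (g (H e)) with he₁
  have hme : ∀ a ∈ maximalIdeal R, a • e₁ = 0 := by
    intro a ha
    have hy : a • e ∈ P := ⟨a, ha, by rw [LinearMap.toSpanSingleton_apply]⟩
    have h8 : a • ι (g (H e)) = a • e := by
      rw [← map_smul, ← map_smul, ← map_smul]
      have h9 : H (a • e) = θ' ⟨a • e, hy⟩ := hH ⟨a • e, hy⟩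
      rw [h9]
      have h10 : g (θ' ⟨a • e, hy⟩) = θ ⟨a • e, hy⟩ := by
        rw [← hθ']; rfl
      rw [h10, hθ]
    rw [he₁, smul_sub, h8, sub_self]
  refine ⟨Submodule.liftQ (maximalIdeal R) (LinearMap.toSpanSingleton R E' e₁) (fun a ha => by
    rw [LinearMap.mem_ker, LinearMap.toSpanSingleton_apply]; exact hme a ha), ?_⟩
  apply LinearMap.ext
  intro y
  obtain ⟨r, rfl⟩ := Submodule.Quotient.mk_surjective (maximalIdeal R) y
  rw [LinearMap.comp_apply, Submodule.liftQ_apply, LinearMap.toSpanSingleton_apply, map_smul]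
  have h11 : π e₁ = s := by
    rw [he₁, map_sub, he, hex.apply_apply_eq_zero, sub_zero]
  rw [h11, hs, ← map_smul, ← Submodule.Quotient.mk_smul, smul_eq_mul, mul_one]

/-- **Rigidity.** -/
lemma rigid_aux (l : List R) (hl : maximalIdeal R ≤ (Ideal.span {x | x ∈ l}).radical)
    (hl2 : ∀ x ∈ l, x ∈ maximalIdeal R) :
    ∀ (i c : ℕ) (M : ModuleCat.{u} R), CS R c M → l.length ≤ c + (i + 1) →
      EV R (i + 1) (R ⧸ maximalIdeal R) M → EV R (i + 2) (R ⧸ maximalIdeal R) M := by
  intro i
  induction i with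
  | zero =>
    intro c M hM hc h
    obtain ⟨pr⟩ := EnoughInjectives.presentation M
    have hJi : Module.Injective R pr.J := inj_of_obj pr.J pr.injective
    have hι : Function.Injective pr.f.hom := (ModuleCat.mono_iff_injective pr.f).1 pr.mono
    have hπ : Function.Surjective (LinearMap.range pr.f.hom).mkQ := Submodule.mkQ_surjective _
    have hex : Function.Exact pr.f.hom (LinearMap.range pr.f.hom).mkQ := fun y => by
      rw [← LinearMap.mem_ker, Submodule.ker_mkQ]; rfl
    have hB : CS R (c + 1) (ModuleCat.of R (pr.J ⧸ LinearMap.range pr.f.hom)) :=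
      ⟨M, pr.J, pr.f.hom, (LinearMap.range pr.f.hom).mkQ, hex, hι, hπ, hJi, hM⟩
    have h1 := rigid_step l hl hl2 M pr.J (ModuleCat.of R (pr.J ⧸ LinearMap.range pr.f.hom))
      pr.f.hom (LinearMap.range pr.f.hom).mkQ hex hι hπ hJi (CS.mono (by simpa using hc) hB) h
    exact EV.cov1 hex hι hπ h1 (EV.of_injective 1)
  | succ i ih =>
    intro c M hM hc h
    obtain ⟨pr⟩ := EnoughInjectives.presentation M
    have hJi : Module.Injective R pr.J := inj_of_obj pr.J pr.injective
    have hι : Function.Injective pr.f.hom := (ModuleCat.mono_iff_injective pr.f).1 pr.mono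
    have hπ : Function.Surjective (LinearMap.range pr.f.hom).mkQ := Submodule.mkQ_surjective _
    have hex : Function.Exact pr.f.hom (LinearMap.range pr.f.hom).mkQ := fun y => by
      rw [← LinearMap.mem_ker, Submodule.ker_mkQ]; rfl
    have hB : CS R (c + 1) (ModuleCat.of R (pr.J ⧸ LinearMap.range pr.f.hom)) :=
      ⟨M, pr.J, pr.f.hom, (LinearMap.range pr.f.hom).mkQ, hex, hι, hπ, hJi, hM⟩
    have h1 : EV R (i + 1) (R ⧸ maximalIdeal R) (pr.J ⧸ LinearMap.range pr.f.hom) :=
      EV.cov3 hex hι hπ (EV.of_injective i) h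
    have h2 := ih (c + 1) (ModuleCat.of R (pr.J ⧸ LinearMap.range pr.f.hom)) hB (by omega) h1
    exact EV.cov1 hex hι hπ h2 (EV.of_injective (i + 2))

/-- **Rigidity** (Christensen–Iyengar–Marley): vanishing in one degree `i + 1 ≥ dim R`
implies vanishing in all larger degrees. -/
theorem rigid (M : Type u) [AddCommGroup M] [Module R M] (i : ℕ)
    (hi : ringKrullDim R ≤ (i + 1 : ℕ))
    (h : EV R (i + 1) (R ⧸ maximalIdeal R) M) (j : ℕ) (hj : i + 1 ≤ j) :
    EV R j (R ⧸ maximalIdeal R) M := by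
  obtain ⟨l, hl1, hl3, hl2⟩ := exists_sop (R := R)
  have hlen : l.length ≤ i + 1 := by
    rw [← hl1] at hi
    exact_mod_cast hi
  induction j, hj using Nat.le_induction with
  | base => exact h
  | succ j hj ih =>
    obtain ⟨j, rfl⟩ : ∃ j', j = j' + 1 := ⟨j - 1, by omega⟩
    exact rigid_aux l hl3 hl2 j 0 (ModuleCat.of R M) trivial (by omega) ih

end local_

end Pool.Agent.Q37.PC
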